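import Pool.Agent.Lib.MP_524519_ag.DU5.Top

/-! # Chapter FLD: the separable closure of `k(X)` with the derivation `d/dX` -/

set_option autoImplicit false

namespace Pool.Agent.DU5

namespace FLD

open Polynomial TensorProduct

section leibniz

variable {k A : Type} [CommRing k] [CommRing A] [Algebra k A]

/-- The general Leibniz rule for the iterates of a derivation. -/
theorem iterate_leibniz (D : Derivation k A A) (n : ℕ) (a b : A) :
    D^[n] (a * b) =
      ∑ ij ∈ Finset.HasAntidiagonal.antidiagonal n, n.choose ij.1 • (D^[ij.1] a * D^[ij.2] b) := by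
  induction n with
  | zero => simp
  | succ n ih =>
    rw [Finset.sum_antidiagonal_choose_succ_nsmul (M := A) (fun i j => D^[i] a * D^[j] b) n]
    simp only [Function.iterate_succ_apply', ih, map_sum, map_nsmul, Derivation.leibniz,
      smul_eq_mul, smul_add, Finset.sum_add_distrib]
    rw [add_right_inj]
    refine Finset.sum_congr rfl fun ij hij => ?_
    rw [n.choose_symm_of_eq_add (Finset.HasAntidiagonal.mem_antidiagonal.1 hij).symm, mul_comm]

/-- In characteristic `p` the `p`-th iterate of a derivation satisfies the Leibniz rule. -/
theorem iterate_p (p : ℕ) [hp : Fact p.Prime] [CharP A p] (D : Derivation k A A) (a b : A) :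
    D^[p] (a * b) = a * D^[p] b + b * D^[p] a := by
  rw [iterate_leibniz]
  have h1 : ∀ ij ∈ Finset.HasAntidiagonal.antidiagonal p, ij ≠ (0, p) → ij ≠ (p, 0) →
      p.choose ij.1 • (D^[ij.1] a * D^[ij.2] b) = 0 := by
    intro ij hij h0 h1
    rw [Finset.HasAntidiagonal.mem_antidiagonal] at hij
    have h2 : ij.1 ≠ 0 := fun h => h0 (Prod.ext h (by simp only; omega))
    have h3 : ij.1 < p := by
      refine lt_of_le_of_ne (by omega) fun h => h1 (Prod.ext h (by simp only; omega))
    obtain ⟨c, hc⟩ := hp.out.dvd_choose_self h2 h3
    rw [hc, nsmul_eq_mul, Nat.cast_mul, CharP.cast_eq_zero, zero_mul, zero_mul]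
  have hpp := hp.out.pos
  rw [Finset.sum_eq_add (0, p) (p, 0) (by simp; omega) (fun c hc hne => h1 c hc hne.1 hne.2)
    (fun h => absurd (by simp) h) (fun h => absurd (by simp) h)]
  simp [mul_comm]

/-- The `p`-th power of a derivation in characteristic `p`. -/
noncomputable def powD (p : ℕ) [Fact p.Prime] [CharP A p] (D : Derivation k A A) :
    Derivation k A A :=
  Derivation.mk' ((D : A →ₗ[k] A) ^ p) fun a b => by
    simp only [Module.End.pow_apply]
    exact iterate_p p D a b

theorem powD_apply (p : ℕ) [Fact p.Prime] [CharP A p] (D : Derivation k A A) (a : A) :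
    powD p D a = D^[p] a := by
  unfold powD
  simp [Module.End.pow_apply]

end leibniz

section etale

variable {k S F : Type} [CommRing k] [CommRing S] [CommRing F] [Algebra k F] [Algebra S F]

/-- A derivation of `F` over `k` which vanishes on `S` vanishes, if `F` is formally unramified
over `S`. -/
theorem eq_zero_of_comp [Algebra.FormallyUnramified S F] (E : Derivation k F F)
    (h : ∀ s : S, E (algebraMap S F s) = 0) : E = 0 := by
  let E' : Derivation S F F :=
    { toLinearMap :=
        { toFun := E
          map_add' := map_add E
          map_smul' := fun s x => by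
            rw [Algebra.smul_def, E.leibniz, h, smul_zero, add_zero]
            simp [Algebra.smul_def] }
      map_one_eq_zero' := E.map_one_eq_zero
      leibniz' := fun a b => E.leibniz a b }
  have h1 : E' = 0 :=
    (KaehlerDifferential.linearMapEquivDerivation S F (M := F)).symm.injective
      (Subsingleton.elim _ _)
  ext x
  exact congrArg (fun (T : Derivation S F F) => T x) h1

/-- A derivation of `S` over `k` extends to `F`, if `F` is formally étale over `S`. -/
theorem exists_ext [Algebra k S] [IsScalarTower k S F] [Algebra.FormallyEtale S F] (d : Derivation k S S) :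
    ∃ E : Derivation k F F, ∀ s, E (algebraMap S F s) = algebraMap S F (d s) := by
  let d' : Derivation k S F := (Algebra.linearMap S F).compDer d
  let l : Ω[S⁄k] →ₗ[S] F := d'.liftKaehlerDifferential
  let l' : F ⊗[S] Ω[S⁄k] →ₗ[F] F := l.liftBaseChange F
  let E : Derivation k F F :=
    (l'.comp (KaehlerDifferential.tensorKaehlerEquivOfFormallyEtale k S F).symm.toLinearMap).compDer
      (KaehlerDifferential.D k F)
  refine ⟨E, fun s => ?_⟩
  have h1 : E (algebraMap S F s) = l' ((KaehlerDifferential.tensorKaehlerEquivOfFormallyEtale
    k S F).symm (KaehlerDifferential.D k F (algebraMap S F s))) := rfl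
  rw [h1, KaehlerDifferential.tensorKaehlerEquivOfFormallyEtale_symm_D_algebraMap,
    LinearMap.liftBaseChange_tmul, one_smul, Derivation.liftKaehlerDifferential_comp_D]
  rfl

end etale

/-- Polynomials of degree `< p` over a separably closed field of characteristic `p` split. -/
theorem splits_of_lt (p : ℕ) [Fact p.Prime] (F : Type) [Field F] [CharP F p] [IsSepClosed F] :
    ∀ (n : ℕ) (q : F[X]), q.natDegree = n → n < p → q.Splits := by
  intro n
  induction n using Nat.strong_induction_on with
  | _ n ih =>
    intro q hq hn
    by_cases hu : n = 0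
    · exact Splits.of_natDegree_eq_zero (hq.trans hu)
    have hq0 : q ≠ 0 := by rintro rfl; exact hu (by rw [← hq, natDegree_zero])
    obtain ⟨g, hg, hgq⟩ := WfDvdMonoid.exists_irreducible_factor
      (fun h => hu (by rw [← hq]; exact natDegree_eq_zero_of_isUnit h)) hq0
    obtain ⟨c, rfl⟩ := hgq
    have hg0 : g ≠ 0 := hg.ne_zero
    have hc0 : c ≠ 0 := right_ne_zero_of_mul hq0
    rw [natDegree_mul hg0 hc0] at hq
    have hgs : g.Separable := by
      rcases separable_or p hg with h | ⟨-, w, hw, hwg⟩
      · exact h
      · exfalso
        have h1 : g.natDegree = w.natDegree * p := by rw [← hwg, natDegree_expand]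
        have h2 : 0 < g.natDegree := hg.natDegree_pos
        have h3 : 0 < w.natDegree := by
          rcases Nat.eq_zero_or_pos w.natDegree with h | h
          · rw [h, zero_mul] at h1; omega
          · exact h
        have h4 : p ≤ g.natDegree := by rw [h1]; exact Nat.le_mul_of_pos_left _ h3
        omega
    have hg1 : g.degree = 1 := IsSepClosed.degree_eq_one_of_irreducible F hg hgs
    have hg2 : g.natDegree = 1 := natDegree_eq_of_degree_eq_some hg1
    exact (Splits.of_natDegree_eq_one hg2).mul (ih c.natDegree (by omega) c rfl (by omega))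

end FLD

theorem fld : FLDStatement := by
  intro p hp k _ _ _
  let L := FractionRing (Polynomial k)
  let F := SeparableClosure L
  have hF : CharP F p := charP_of_injective_algebraMap (algebraMap k F).injective p
  have h1 : Algebra.FormallyEtale (Polynomial k) L :=
    Algebra.FormallyEtale.of_isLocalization (nonZeroDivisors (Polynomial k))
  have h2 : Algebra.FormallyEtale L F := Algebra.FormallyEtale.of_isSeparable L F
  have h3 : Algebra.FormallyEtale (Polynomial k) F := Algebra.FormallyEtale.comp _ L F
  have h4 : IsScalarTower k (Polynomial k) F := by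
    refine IsScalarTower.of_algebraMap_eq fun x => ?_
    rw [IsScalarTower.algebraMap_apply k L F, IsScalarTower.algebraMap_apply (Polynomial k) L F,
      IsScalarTower.algebraMap_apply k (Polynomial k) L]
  obtain ⟨D, hD⟩ := FLD.exists_ext (k := k) (S := Polynomial k) (F := F) Polynomial.derivative'
  have hD' : ∀ (n : ℕ) (s : Polynomial k), D^[n] (algebraMap (Polynomial k) F s) =
      algebraMap (Polynomial k) F (Polynomial.derivative^[n] s) := by
    intro n
    induction n with
    | zero => intro s; rfl
    | succ n ih =>
      intro s
      rw [Function.iterate_succ_apply, Function.iterate_succ_apply, hD, ih]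
      rfl
  refine ⟨F, inferInstance, inferInstance, D, algebraMap (Polynomial k) F Polynomial.X, ?_, ?_, ?_⟩
  · intro a
    have h4 : FLD.powD p D = 0 := by
      refine FLD.eq_zero_of_comp (S := Polynomial k) _ fun s => ?_
      rw [FLD.powD_apply, hD']
      have h5 : Polynomial.derivative^[p] s = 0 := by
        rw [Polynomial.iterate_derivative_eq_factorial_smul_sum, nsmul_eq_mul]
        have h6 : ((p.factorial : ℕ) : Polynomial k) = 0 := by
          rw [CharP.cast_eq_zero_iff (Polynomial k) p]
          exact (Nat.Prime.dvd_factorial hp.out).2 le_rfl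
        rw [h6, zero_mul]
      rw [h5, map_zero]
    rw [← FLD.powD_apply, h4]
    rfl
  · rw [hD]
    simp
  · refine ⟨?_, fun q _ hq => FLD.splits_of_lt p F _ q rfl ?_⟩
    · rw [Ne, CharP.cast_eq_zero_iff F p, Nat.Prime.dvd_factorial hp.out]
      have := hp.out.pos
      omega
    · have := hp.out.pos
      omega

end Pool.Agent.DU5
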